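import Pool.Agent.PetRing.Graph

/-!
# MP_df1a54_co, `k = 3`: the ring is 3-connected
-/

open Finset

set_option autoImplicit false
set_option linter.unusedSectionVars false
set_option linter.unusedVariables false

namespace Pool.Agent.PetRing

open Pool.Agent.RE26

variable {T ρ : ℕ} {X Y : Finset (PV T ρ)}

theorem off_zero : off T 0 = 0 := rfl

theorem off_one : off T 1 = 1 := by
  apply Fin.ext
  show 1 = ((1 : Fin (T + 5)) : ℕ)
  rw [Fin.val_one]

theorem off_two : off T 2 = 1 + 1 := by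
  apply Fin.ext
  show 2 = ((1 + 1 : Fin (T + 5)) : ℕ)
  rw [Fin.val_add, Fin.val_one, Nat.mod_eq_of_lt (by omega)]

theorem one_ne : (1 : Fin (T + 5)) ≠ 0 := by
  intro h
  have h1 : ((1 : Fin (T + 5)) : ℕ) = ((0 : Fin (T + 5)) : ℕ) := by rw [h]
  rw [Fin.val_one, Fin.val_zero] at h1
  omega

theorem two_ne : (1 + 1 : Fin (T + 5)) ≠ 0 := by
  intro h
  have h1 : ((1 + 1 : Fin (T + 5)) : ℕ) = ((0 : Fin (T + 5)) : ℕ) := by rw [h]
  rw [Fin.val_add, Fin.val_one, Nat.mod_eq_of_lt (by omega), Fin.val_zero] at h1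
  omega

/-- three different unclean positions do not exist -/
theorem three_unclean (hS : (X ∪ Y)ᶜ.card ≤ 2) {p q r : Fin (T + 5)} (hpq : p ≠ q) (hpr : p ≠ r)
    (hqr : q ≠ r) (hp : ¬ Clean X Y p) (hq : ¬ Clean X Y q) (hr : ¬ Clean X Y r) : False := by
  classical
  have h1 := card_unclean hS {p, q, r} (by
    intro i hi
    rw [mem_insert, mem_insert, mem_singleton] at hi
    rcases hi with rfl | rfl | rfl
    · exact hp
    · exact hq
    · exact hr)
  rw [card_insert_of_notMem (by
    rw [mem_insert, mem_singleton]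
    exact fun h => h.elim hpq hpr), card_pair hqr] at h1
  omega

theorem clean_comm {i : Fin (T + 5)} (h : Clean X Y i) : Clean Y X i := by
  intro v hv
  rw [union_comm] at hv
  exact h v hv

theorem step_one (hn : ∀ x ∈ X, ∀ y ∈ Y, ¬ (petG T ρ).Adj x y) {i : Fin (T + 5)}
    (h : Clean X Y i) (hi : sv i ∈ X) (h' : Clean X Y (i + 1)) : sv (i + 1) ∈ X := by
  have h1 := clean_side hn h hi 1
  rw [off_one] at h1
  exact (mem_union.1 (clean_sv h')).resolve_right h1

theorem step_two (hn : ∀ x ∈ X, ∀ y ∈ Y, ¬ (petG T ρ).Adj x y) {i : Fin (T + 5)}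
    (h : Clean X Y i) (hi : sv i ∈ X) (h' : Clean X Y (i + 1 + 1)) : sv (i + 1 + 1) ∈ X := by
  have h1 := clean_side hn h hi 2
  rw [off_two, ← add_assoc] at h1
  exact (mem_union.1 (clean_sv h')).resolve_right h1

/-- a change of sides needs two consecutive unclean positions -/
theorem change (hn : ∀ x ∈ X, ∀ y ∈ Y, ¬ (petG T ρ).Adj x y) (hXY : Disjoint X Y)
    {i0 i1 : Fin (T + 5)} (h0 : Clean X Y i0) (h0' : sv i0 ∈ X) (h1 : Clean X Y i1)
    (h1' : sv i1 ∈ Y) : ∃ p, Clean X Y p ∧ sv p ∈ X ∧ ¬ Clean X Y (p + 1) ∧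
      ¬ Clean X Y (p + 1 + 1) := by
  set A : Fin (T + 5) → Prop := fun i => Clean X Y i ∧ sv i ∈ X with hA
  set P : Fin (T + 5) → Prop := fun i => A i ∨ (¬ Clean X Y i ∧ A (i - 1)) ∨
    (¬ Clean X Y i ∧ ¬ Clean X Y (i - 1) ∧ A (i - 1 - 1)) with hP
  have hP0 : P i0 := Or.inl ⟨h0, h0'⟩
  have hP1 : ¬ P i1 := by
    rintro (h | h | h)
    · exact Finset.disjoint_left.1 hXY h.2 h1'
    · exact h.1 h1
    · exact h.1 h1
  obtain ⟨p, hp, hp'⟩ := cyc_change P i0 i1 hP0 hP1
  have e1 : p + 1 - 1 = p := add_sub_cancel_right _ _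
  have hcl : ∀ q, A q → Clean X Y (q + 1) → A (q + 1) := fun q hq h => ⟨h, step_one hn hq.1 hq.2 h⟩
  have hcl2 : ∀ q, A q → Clean X Y (q + 1 + 1) → A (q + 1 + 1) :=
    fun q hq h => ⟨h, step_two hn hq.1 hq.2 h⟩
  rcases hp with hp | hp | hp
  · exfalso
    by_cases hc : Clean X Y (p + 1)
    · exact hp' (Or.inl (hcl p hp hc))
    · refine hp' (Or.inr (Or.inl ⟨hc, ?_⟩))
      rw [e1]
      exact hp
  · exfalso
    have e2 : p - 1 + 1 = p := sub_add_cancel _ _
    by_cases hc : Clean X Y (p + 1)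
    · have h2 := hcl2 (p - 1) hp.2 (by rw [e2]; exact hc)
      rw [e2] at h2
      exact hp' (Or.inl h2)
    · refine hp' (Or.inr (Or.inr ⟨hc, ?_, ?_⟩))
      · rw [e1]
        exact hp.1
      · rw [e1]
        exact hp.2
  · have e2 : p - 1 - 1 + 1 = p - 1 := sub_add_cancel _ _
    have e3 : p - 1 + 1 = p := sub_add_cancel _ _
    refine ⟨p - 1 - 1, hp.2.2.1, hp.2.2.2, ?_, ?_⟩
    · rw [e2]
      exact hp.2.1
    · rw [e2, e3]
      exact hp.1

theorem all_side (hn : ∀ x ∈ X, ∀ y ∈ Y, ¬ (petG T ρ).Adj x y) (hXY : Disjoint X Y)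
    (hS : (X ∪ Y)ᶜ.card ≤ 2) {i0 i1 : Fin (T + 5)} (h0 : Clean X Y i0) (h0' : sv i0 ∈ X)
    (h1 : Clean X Y i1) (h1' : sv i1 ∈ Y) : False := by
  obtain ⟨p, hp1, hp2, hp3, hp4⟩ := change hn hXY h0 h0' h1 h1'
  obtain ⟨q, hq1, hq2, hq3, hq4⟩ := change (X := Y) (Y := X)
    (fun y hy x hx h => hn x hx y hy h.symm) hXY.symm (clean_comm h1) h1' (clean_comm h0) h0'
  replace hq1 := clean_comm hq1
  have hq3' : ¬ Clean X Y (q + 1) := fun h => hq3 (clean_comm h)
  have hq4' : ¬ Clean X Y (q + 1 + 1) := fun h => hq4 (clean_comm h)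
  have hpq : p ≠ q := by
    rintro rfl
    exact Finset.disjoint_left.1 hXY hp2 hq2
  have a1 : p + 1 ≠ q + 1 := fun h => hpq (add_right_cancel h)
  have a2 : p + 1 ≠ p + 1 + 1 := by
    intro h
    exact one_ne (T := T) (by
      have : p + 1 + 1 = p + 1 + 0 := by rw [add_zero]; exact h.symm
      exact add_left_cancel this)
  have a3 : q + 1 ≠ p + 1 + 1 := by
    intro h
    have : q = p + 1 := add_right_cancel h
    rw [← this] at hp3
    exact hp3 hq1
  exact three_unclean hS a1 a2 a3 hp3 hq3' hp4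

/-- if one clean position is in `X` then `Y` is empty -/
theorem no_other (hn : ∀ x ∈ X, ∀ y ∈ Y, ¬ (petG T ρ).Adj x y) (hXY : Disjoint X Y)
    (hS : (X ∪ Y)ᶜ.card ≤ 2) {i0 : Fin (T + 5)} (h0 : Clean X Y i0) (h0' : sv i0 ∈ X)
    (hY : Y.Nonempty) : False := by
  classical
  have hall : ∀ i, Clean X Y i → sv i ∈ X := by
    intro i hi
    rcases mem_union.1 (clean_sv hi) with h | h
    · exact h
    · exact (all_side hn hXY hS h0 h0' hi h).elim
  have hsv : ∀ i, sv i ∉ Y := by
    intro i hi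
    have e1 : i - 1 + 1 = i := sub_add_cancel _ _
    have e2 : i - 1 - 1 + 1 = i - 1 := sub_add_cancel _ _
    have c0 : ¬ Clean X Y i := fun h => Finset.disjoint_left.1 hXY (hall i h) hi
    have c1 : ¬ Clean X Y (i - 1) := by
      intro h
      have h1 := clean_side hn h (hall _ h) 1
      rw [off_one, e1] at h1
      exact h1 hi
    have c2 : ¬ Clean X Y (i - 1 - 1) := by
      intro h
      have h1 := clean_side hn h (hall _ h) 2
      rw [off_two, ← add_assoc, e2, e1] at h1
      exact h1 hi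
    have a1 : i ≠ i - 1 := by
      intro h
      exact one_ne (T := T) (by
        have : i + 1 = i + 0 := by
          rw [add_zero]
          nth_rewrite 2 [← e1]
          rw [← h]
        exact add_left_cancel this)
    have a2 : i - 1 ≠ i - 1 - 1 := by
      intro h
      apply a1
      have h2 : i - 1 + 1 = i - 1 - 1 + 1 := by rw [← h]
      rwa [e1, e2] at h2
    have a3 : i ≠ i - 1 - 1 := by
      intro h
      exact two_ne (T := T) (by
        have : i + (1 + 1) = i + 0 := by
          rw [add_zero, ← add_assoc]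
          nth_rewrite 1 [h]
          rw [e2, e1]
        exact add_left_cancel this)
    exact three_unclean hS a1 a3 a2 c0 c1 c2
  -- three different vertices of the separating set
  have three : ∀ f : Fin 3 → PV T ρ, Function.Injective f → (∀ a, f a ∈ (X ∪ Y)ᶜ) → False := by
    intro f hf hfS
    have h1 : (univ : Finset (Fin 3)).card ≤ (X ∪ Y)ᶜ.card :=
      card_le_card_of_injOn f (fun a _ => mem_coe.2 (hfS a)) (fun a _ b _ h => hf h)
    rw [card_univ, Fintype.card_fin] at h1
    omega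
  obtain ⟨y, hy⟩ := hY
  rcases y with ⟨i, u⟩ | i | x
  · have hpick : ∀ a : Fin 3, ∃ s : PV T ρ, s ∈ (X ∪ Y)ᶜ ∧
        (s = sv (i + off T a) ∨ ∃ z ∈ tl u a, s = fv i z) := by
      intro a
      by_contra hcon
      push Not at hcon
      have h1 : ∀ z ∈ tl u a, fv i z ∈ X ∪ Y := by
        intro z hz
        by_contra h
        exact (hcon _ (mem_compl.2 h)).2 z hz rfl
      have h2 : sv (i + off T a) ∈ X ∪ Y := by
        by_contra h
        exact (hcon _ (mem_compl.2 h)).1 rfl
      have h3 : fv i (att a) ∈ Y := by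
        refine chain_mem (X := Y) (Y := X) (fun y hy x hx h => hn x hx y hy h.symm) i (tl u a) u
          (tl_chk u a) (fun z hz => ?_) hy _ (tl_last u a)
        rw [union_comm]
        exact h1 z hz
      rcases mem_union.1 h2 with h | h
      · exact hn _ h _ h3 (adj_out i a).symm
      · exact hsv _ h
    choose f hf using hpick
    refine three f ?_ (fun a => (hf a).1)
    intro a b hab
    rcases (hf a).2 with h1 | ⟨z, hz, h1⟩ <;> rcases (hf b).2 with h2 | ⟨z', hz', h2⟩
    · rw [h1, h2] at hab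
      have h3 : i + off T a = i + off T b := by simpa using hab
      exact off_inj (add_left_cancel h3)
    · rw [h1, h2] at hab
      simp at hab
    · rw [h1, h2] at hab
      simp at hab
    · rw [h1, h2] at hab
      have h3 : z = z' := by simpa using hab
      by_contra hne
      rw [← h3] at hz'
      exact tl_disj u a b hne z hz hz'
  · exact hsv i hy
  · refine three (fun a => sv (off T a)) ?_ ?_
    · intro a b hab
      have h3 : off T a = off T b := by simpa using hab
      exact off_inj h3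
    · intro a
      rw [mem_compl, mem_union]
      rintro (h | h)
      · exact hn _ h _ hy (Or.inl (Half.ext x a))
      · exact hsv _ h

theorem pet_conn : KConn (petG T ρ) 3 := by
  classical
  refine kconn_of_sep _ _ ?_ ?_
  · rw [card_PV]
    omega
  intro X Y hX hY hXY hn
  by_contra hlt
  push Not at hlt
  have hS : (X ∪ Y)ᶜ.card ≤ 2 := by omega
  obtain ⟨i, hi⟩ : ∃ i, Clean X Y i := by
    by_contra hcon
    push Not at hcon
    have h1 := card_unclean hS (univ : Finset (Fin (T + 5))) (fun i _ => hcon i)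
    rw [card_univ, Fintype.card_fin] at h1
    omega
  rcases mem_union.1 (clean_sv hi) with h | h
  · exact no_other hn hXY hS hi h hY
  · exact no_other (X := Y) (Y := X) (fun y hy x hx h => hn x hx y hy h.symm) hXY.symm
      (by rwa [union_comm]) (clean_comm hi) h hX

end Pool.Agent.PetRing
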