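import Mathlib

/-!
# MP_df1a54_co, `k = 3`: the Petersen graph minus a vertex
-/

open Finset

set_option autoImplicit false

namespace Pool.Agent.PetRing

/-- the ends of the 12 edges of the Petersen graph minus a vertex -/
def pend : Fin 12 → Fin 9 × Fin 9 :=
  ![(0, 1), (1, 2), (2, 3), (3, 4), (4, 0), (0, 5), (1, 6), (2, 7), (3, 8), (5, 7), (6, 8), (8, 5)]

/-- the three vertices next to the missing vertex -/
def att : Fin 3 → Fin 9 := ![4, 6, 7]

/-- adjacency in the Petersen graph minus a vertex -/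
def padj (u v : Fin 9) : Bool := decide (∃ t, pend t = (u, v) ∨ pend t = (v, u))

/-- the rest of a path from `v` to `att a`; for different `a` the rests are disjoint -/
def tl : Fin 9 → Fin 3 → List (Fin 9) :=
  ![![[4], [1, 6], [5, 7]], ![[0, 4], [6], [2, 7]], ![[3, 4], [1, 6], [7]],
    ![[4], [8, 6], [2, 7]], ![[], [0, 1, 6], [3, 2, 7]], ![[0, 4], [8, 6], [7]],
    ![[1, 0, 4], [], [8, 5, 7]], ![[2, 3, 4], [5, 8, 6], []], ![[3, 4], [6], [5, 7]]]

/-- consecutive vertices are adjacent -/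
def chk : Fin 9 → List (Fin 9) → Bool
  | _, [] => true
  | u, v :: l => padj u v && chk v l

theorem tl_chk : ∀ v a, chk v (tl v a) = true := by decide

theorem tl_last : ∀ v a, att a ∈ v :: tl v a := by decide

theorem tl_disj : ∀ v a b, a ≠ b → ∀ z ∈ tl v a, z ∉ tl v b := by decide

theorem att_inj : ∀ a b, att a = att b → a = b := by decide

theorem deg_le : ∀ u : Fin 9, (univ.filter (fun v => padj u v = true)).card +
    (univ.filter (fun a => att a = u)).card ≤ 3 := by decide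

theorem padj_symm : ∀ u v, padj u v = true → padj v u = true := by decide

theorem pend_adj : ∀ t, padj (pend t).1 (pend t).2 = true := by decide

theorem pend_ne : ∀ t, (pend t).1 ≠ (pend t).2 := by decide

theorem pend_inj : ∀ t t', (pend t = pend t' ∨ ((pend t).1 = (pend t').2 ∧ (pend t).2 = (pend t').1)) →
    t = t' := by decide

theorem fin_core (C : Finset (Fin 9)) (l : List (Fin 12)) (a0 : Fin 3) (hC : C.Nonempty)
    (h1 : ∀ t, ((pend t).1 ∈ C ∧ (pend t).2 ∉ C ∨ (pend t).2 ∈ C ∧ (pend t).1 ∉ C) → t ∈ l)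
    (h2 : ∀ a, att a ∈ C → a = a0) (x : Fin 12 → ℕ) (y : Fin 3 → ℕ)
    (hx : ∀ t ∈ l, x t = 1) (hy : y a0 = 1) :
    ∃ C : Finset (Fin 9), C.Nonempty ∧
      (∀ t, ((pend t).1 ∈ C ∧ (pend t).2 ∉ C ∨ (pend t).2 ∈ C ∧ (pend t).1 ∉ C) → x t = 1) ∧
      ∀ a, att a ∈ C → y a = 1 := by
  refine ⟨C, hC, fun t ht => hx t (h1 t ht), fun a ha => ?_⟩
  rw [h2 a ha]
  exact hy

/-- A perfect matching of the Petersen graph leaves a pentagon which avoids the missing vertex. -/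
theorem core (x : Fin 12 → ℕ) (y : Fin 3 → ℕ)
    (v0 : x 0 + x 4 + x 5 ≤ 1) (v1 : x 0 + x 1 + x 6 ≤ 1) (v2 : x 1 + x 2 + x 7 ≤ 1)
    (v3 : x 2 + x 3 + x 8 ≤ 1) (v4 : x 3 + x 4 + y 0 ≤ 1) (v5 : x 5 + x 9 + x 11 ≤ 1)
    (v6 : x 6 + x 10 + y 1 ≤ 1) (v7 : x 7 + x 9 + y 2 ≤ 1) (v8 : x 8 + x 10 + x 11 ≤ 1)
    (vh : y 0 + y 1 + y 2 ≤ 1)
    (tot : 5 ≤ x 0 + x 1 + x 2 + x 3 + x 4 + x 5 + x 6 + x 7 + x 8 + x 9 + x 10 + x 11 +
      (y 0 + y 1 + y 2)) :
    ∃ C : Finset (Fin 9), C.Nonempty ∧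
      (∀ t, ((pend t).1 ∈ C ∧ (pend t).2 ∉ C ∨ (pend t).2 ∈ C ∧ (pend t).1 ∉ C) → x t = 1) ∧
      ∀ a, att a ∈ C → y a = 1 := by
  have e0 : x 0 + x 4 + x 5 = 1 := le_antisymm v0 (by linarith)
  have e1 : x 0 + x 1 + x 6 = 1 := le_antisymm v1 (by linarith)
  have e2 : x 1 + x 2 + x 7 = 1 := le_antisymm v2 (by linarith)
  have e3 : x 2 + x 3 + x 8 = 1 := le_antisymm v3 (by linarith)
  have e4 : x 3 + x 4 + y 0 = 1 := le_antisymm v4 (by linarith)
  have e5 : x 5 + x 9 + x 11 = 1 := le_antisymm v5 (by linarith)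
  have e6 : x 6 + x 10 + y 1 = 1 := le_antisymm v6 (by linarith)
  have e7 : x 7 + x 9 + y 2 = 1 := le_antisymm v7 (by linarith)
  have e8 : x 8 + x 10 + x 11 = 1 := le_antisymm v8 (by linarith)
  have eh : y 0 + y 1 + y 2 = 1 := le_antisymm vh (by linarith)
  clear v0 v1 v2 v3 v4 v5 v6 v7 v8 vh tot
  have c : (y 0 = 1 ∧ x 0 = 1) ∨ (y 0 = 1 ∧ x 5 = 1) ∨ (y 1 = 1 ∧ x 0 = 1) ∨ (y 1 = 1 ∧ x 4 = 1) ∨
      (y 2 = 1 ∧ x 4 = 1) ∨ (y 2 = 1 ∧ x 5 = 1) := by omega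
  rcases c with ⟨h, h'⟩ | ⟨h, h'⟩ | ⟨h, h'⟩ | ⟨h, h'⟩ | ⟨h, h'⟩ | ⟨h, h'⟩
  · refine fin_core {0, 3, 4, 5, 8} [0, 2, 9, 10] 0 (by decide) (by decide) (by decide) x y ?_ h
    simp only [List.mem_cons, List.not_mem_nil, or_false]
    rintro t (rfl | rfl | rfl | rfl) <;> omega
  · refine fin_core {0, 1, 2, 3, 4} [5, 6, 7, 8] 0 (by decide) (by decide) (by decide) x y ?_ h
    simp only [List.mem_cons, List.not_mem_nil, or_false]
    rintro t (rfl | rfl | rfl | rfl) <;> omega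
  · refine fin_core {1, 2, 3, 6, 8} [0, 3, 7, 11] 1 (by decide) (by decide) (by decide) x y ?_ h
    simp only [List.mem_cons, List.not_mem_nil, or_false]
    rintro t (rfl | rfl | rfl | rfl) <;> omega
  · refine fin_core {0, 1, 5, 6, 8} [1, 4, 8, 9] 1 (by decide) (by decide) (by decide) x y ?_ h
    simp only [List.mem_cons, List.not_mem_nil, or_false]
    rintro t (rfl | rfl | rfl | rfl) <;> omega
  · refine fin_core {0, 1, 2, 5, 7} [2, 4, 6, 11] 2 (by decide) (by decide) (by decide) x y ?_ h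
    simp only [List.mem_cons, List.not_mem_nil, or_false]
    rintro t (rfl | rfl | rfl | rfl) <;> omega
  · refine fin_core {2, 3, 5, 7, 8} [1, 3, 5, 10] 2 (by decide) (by decide) (by decide) x y ?_ h
    simp only [List.mem_cons, List.not_mem_nil, or_false]
    rintro t (rfl | rfl | rfl | rfl) <;> omega

end Pool.Agent.PetRing
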