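import Pool.Agent.PetRing.Conn

/-!
# MP_df1a54_co, `k = 3`: at most four deletable edges at each copy
-/

open Finset

set_option autoImplicit false
set_option linter.unusedSectionVars false
set_option linter.unusedVariables false

namespace Pool.Agent.PetRing

open Pool.Agent.RE26 Pool.Agent.OddRing

variable {T ρ : ℕ}

/-- the edge `t` inside copy `i` -/
def ein (i : Fin (T + 5)) (t : Fin 12) : Sym2 (PV T ρ) := s(fv i (pend t).1, fv i (pend t).2)

/-- the outgoing edge `a` of copy `i` -/
def eout (i : Fin (T + 5)) (a : Fin 3) : Sym2 (PV T ρ) := s(fv i (att a), sv (i + off T a))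

/-- the neighbours of a vertex of a copy -/
def nbr (i : Fin (T + 5)) (u : Fin 9) : Finset (PV T ρ) :=
  (univ.filter (fun v => padj u v = true)).image (fun v => fv i v) ∪
    (univ.filter (fun a => att a = u)).image (fun a => sv (i + off T a))

theorem nbr_card (i : Fin (T + 5)) (u : Fin 9) : (nbr (ρ := ρ) i u).card ≤ 2 + 1 := by
  unfold nbr
  refine (card_union_le _ _).trans ((add_le_add card_image_le card_image_le).trans (deg_le u))

theorem mem_nbr {i : Fin (T + 5)} {u : Fin 9} {w : PV T ρ} (h : (petG T ρ).Adj (fv i u) w) :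
    w ∈ nbr i u := by
  have key : ∀ v w : PV T ρ, Half v w → (v = fv i u → w ∈ nbr i u) ∧ (w = fv i u → v ∈ nbr i u) := by
    intro v w h
    cases h with
    | inner j t =>
      refine ⟨fun he => ?_, fun he => ?_⟩
      · have h1 : j = i ∧ (pend t).1 = u := by simpa using he
        obtain ⟨rfl, rfl⟩ := h1
        unfold nbr
        exact mem_union_left _ (mem_image.2 ⟨_, mem_filter.2 ⟨mem_univ _, pend_adj t⟩, rfl⟩)
      · have h1 : j = i ∧ (pend t).2 = u := by simpa using he
        obtain ⟨rfl, rfl⟩ := h1
        unfold nbr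
        exact mem_union_left _ (mem_image.2 ⟨_, mem_filter.2 ⟨mem_univ _,
          padj_symm _ _ (pend_adj t)⟩, rfl⟩)
    | out j a =>
      refine ⟨fun he => ?_, fun he => ?_⟩
      · have h1 : j = i ∧ att a = u := by simpa using he
        obtain ⟨rfl, rfl⟩ := h1
        unfold nbr
        exact mem_union_right _ (mem_image.2 ⟨a, mem_filter.2 ⟨mem_univ _, rfl⟩, rfl⟩)
      · simp at he
    | ext x a =>
      refine ⟨fun he => ?_, fun he => ?_⟩
      · simp at he
      · simp at he
  rcases h with h | h
  · exact (key _ _ h).1 rfl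
  · exact (key _ _ h).2 rfl

section Del

variable (F : Finset (Sym2 (PV T ρ))) (hF : (F : Set (Sym2 (PV T ρ))) ⊆ (petG T ρ).edgeSet)
  (hK : KConn ((petG T ρ).deleteEdges (F : Set (Sym2 (PV T ρ)))) 2)

include hF hK

theorem one_at (i : Fin (T + 5)) (u : Fin 9) {w w' : PV T ρ} (h1 : s(fv i u, w) ∈ F)
    (h2 : s(fv i u, w') ∈ F) : w = w' :=
  deg_one (petG T ρ) F 2 hF hK (fv i u) (nbr i u) (fun w h => mem_nbr h) (nbr_card i u) h1 h2

/-- two different inner edges with a common end -/
theorem in_in (i : Fin (T + 5)) {t t' : Fin 12} (hne : t ≠ t')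
    (hc : (pend t).1 = (pend t').1 ∨ (pend t).1 = (pend t').2 ∨ (pend t).2 = (pend t').1 ∨
      (pend t).2 = (pend t').2) (h : ein i t ∈ F) (h' : ein i t' ∈ F) : False := by
  apply hne
  unfold ein at h h'
  rcases hc with hc | hc | hc | hc
  · rw [hc] at h
    have h1 := one_at F hF hK i _ h h'
    have h2 : (pend t).2 = (pend t').2 := by simpa using h1
    exact pend_inj t t' (Or.inl (Prod.ext hc h2))
  · rw [hc] at h
    rw [Sym2.eq_swap] at h'
    have h1 := one_at F hF hK i _ h h'
    have h2 : (pend t).2 = (pend t').1 := by simpa using h1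
    exact pend_inj t t' (Or.inr ⟨hc, h2⟩)
  · rw [Sym2.eq_swap, hc] at h
    have h1 := one_at F hF hK i _ h h'
    have h2 : (pend t).1 = (pend t').2 := by simpa using h1
    exact pend_inj t t' (Or.inr ⟨h2, hc⟩)
  · rw [Sym2.eq_swap, hc] at h
    rw [Sym2.eq_swap] at h'
    have h1 := one_at F hF hK i _ h h'
    have h2 : (pend t).1 = (pend t').1 := by simpa using h1
    exact pend_inj t t' (Or.inl (Prod.ext h2 hc))

theorem in_out (i : Fin (T + 5)) {t : Fin 12} {a : Fin 3}
    (hc : (pend t).1 = att a ∨ (pend t).2 = att a) (h : ein i t ∈ F) (h' : eout i a ∈ F) :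
    False := by
  unfold ein at h
  unfold eout at h'
  rcases hc with hc | hc
  · rw [hc] at h
    have h1 := one_at F hF hK i _ h h'
    simp at h1
  · rw [Sym2.eq_swap, hc] at h
    have h1 := one_at F hF hK i _ h h'
    simp at h1

/-- at most one outgoing edge of a copy is deleted -/
theorem out_out (i : Fin (T + 5)) {a b : Fin 3} (hab : a ≠ b) (ha : eout i a ∈ F)
    (hb : eout i b ∈ F) : False := by
  classical
  obtain ⟨c, hc⟩ : ∃ c : Fin 3, ∀ d : Fin 3, d ≠ a → d ≠ b → d = c := by
    have : ∀ a b : Fin 3, a ≠ b → ∃ c : Fin 3, ∀ d : Fin 3, d ≠ a → d ≠ b → d = c := by decide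
    exact this a b hab
  set X : Finset (PV T ρ) := univ.image (fun u => fv i u) with hX
  set Y : Finset (PV T ρ) := (insert (sv (i + off T c)) X)ᶜ with hY
  obtain ⟨d, hd⟩ : ∃ d : Fin 3, d ≠ c := by
    have : ∀ c : Fin 3, ∃ d : Fin 3, d ≠ c := by decide
    exact this c
  have h1 := sep_of_kconn _ _ hK X Y ⟨fv i 0, mem_image.2 ⟨0, mem_univ _, rfl⟩⟩
    ⟨sv (i + off T d), by
      rw [hY, mem_compl, mem_insert, not_or]
      refine ⟨?_, ?_⟩
      · intro h
        have h3 : i + off T d = i + off T c := by simpa using h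
        exact hd (off_inj (add_left_cancel h3))
      · rw [hX, mem_image]
        rintro ⟨u, -, hu⟩
        simp at hu⟩
    (by
      rw [Finset.disjoint_left]
      intro v hv hv'
      rw [hY, mem_compl, mem_insert, not_or] at hv'
      exact hv'.2 hv)
    (by
      intro v hv w hw hvw
      rw [SimpleGraph.deleteEdges_adj] at hvw
      obtain ⟨u, -, rfl⟩ := mem_image.1 hv
      rw [hY, mem_compl, mem_insert, not_or] at hw
      have h2 := mem_nbr hvw.1
      unfold nbr at h2
      rcases mem_union.1 h2 with h2 | h2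
      · obtain ⟨z, -, rfl⟩ := mem_image.1 h2
        exact hw.2 (mem_image.2 ⟨z, mem_univ _, rfl⟩)
      · obtain ⟨z, hz, rfl⟩ := mem_image.1 h2
        rw [mem_filter] at hz
        have hz2 := hz.2
        subst hz2
        by_cases hza : z = a
        · subst hza
          exact hvw.2 (mem_coe.2 ha)
        by_cases hzb : z = b
        · subst hzb
          exact hvw.2 (mem_coe.2 hb)
        rw [hc z hza hzb] at hw
        exact hw.1 rfl)
  have h2 : (X ∪ Y)ᶜ ⊆ {sv (i + off T c)} := by
    intro v hv
    rw [mem_compl, mem_union, not_or, hY, mem_compl, not_not, mem_insert] at hv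
    rw [mem_singleton]
    exact hv.2.resolve_right hv.1
  have h3 := card_le_card h2
  rw [card_singleton] at h3
  omega

open Classical in
/-- at most four edges at a copy are deleted -/
theorem four (i : Fin (T + 5)) :
    (univ.filter (fun t => ein i t ∈ F)).card + (univ.filter (fun a => eout i a ∈ F)).card ≤ 4 := by
  by_contra hcon
  push Not at hcon
  set x : Fin 12 → ℕ := fun t => if ein i t ∈ F then 1 else 0 with hx
  set y : Fin 3 → ℕ := fun a => if eout i a ∈ F then 1 else 0 with hy
  have hxs : (univ.filter (fun t => ein i t ∈ F)).card = ∑ t, x t := by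
    rw [card_filter]
  have hys : (univ.filter (fun a => eout i a ∈ F)).card = ∑ a, y a := by
    rw [card_filter]
  rw [hxs, hys] at hcon
  have hx1 : ∀ t, x t = 1 ↔ ein i t ∈ F := by
    intro t
    rw [hx]
    dsimp only
    split_ifs with h
    · simp [h]
    · simp [h]
  have hy1 : ∀ a, y a = 1 ↔ eout i a ∈ F := by
    intro a
    rw [hy]
    dsimp only
    split_ifs with h
    · simp [h]
    · simp [h]
  have hxle : ∀ t, x t ≤ 1 := by
    intro t
    rw [hx]
    dsimp only
    split_ifs <;> omega
  have hyle : ∀ a, y a ≤ 1 := by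
    intro a
    rw [hy]
    dsimp only
    split_ifs <;> omega
  have xx : ∀ t t', t ≠ t' → ((pend t).1 = (pend t').1 ∨ (pend t).1 = (pend t').2 ∨
      (pend t).2 = (pend t').1 ∨ (pend t).2 = (pend t').2) → x t + x t' ≤ 1 := by
    intro t t' hne hc
    by_contra h
    have h1 := hxle t
    have h2 := hxle t'
    exact in_in F hF hK i hne hc ((hx1 t).1 (by omega)) ((hx1 t').1 (by omega))
  have xy : ∀ t a, ((pend t).1 = att a ∨ (pend t).2 = att a) → x t + y a ≤ 1 := by
    intro t a hc
    by_contra h
    have h1 := hxle t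
    have h2 := hyle a
    exact in_out F hF hK i hc ((hx1 t).1 (by omega)) ((hy1 a).1 (by omega))
  have yy : ∀ a b, a ≠ b → y a + y b ≤ 1 := by
    intro a b hne
    by_contra h
    have h1 := hyle a
    have h2 := hyle b
    exact out_out F hF hK i hne ((hy1 a).1 (by omega)) ((hy1 b).1 (by omega))
  have tot : ∑ t, x t + ∑ a, y a = x 0 + x 1 + x 2 + x 3 + x 4 + x 5 + x 6 + x 7 + x 8 + x 9 +
      x 10 + x 11 + (y 0 + y 1 + y 2) := by
    rw [Fin.sum_univ_three]
    congr 1
    simp only [Fin.sum_univ_succ, Fin.sum_univ_zero, Fin.succ_zero_eq_one, Fin.succ_one_eq_two]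
    ring_nf
    rfl
  rw [tot] at hcon
  obtain ⟨C, hC, hC1, hC2⟩ := core x y
    (by have := xx 0 4 (by decide) (by decide); have := xx 0 5 (by decide) (by decide)
        have := xx 4 5 (by decide) (by decide); omega)
    (by have := xx 0 1 (by decide) (by decide); have := xx 0 6 (by decide) (by decide)
        have := xx 1 6 (by decide) (by decide); omega)
    (by have := xx 1 2 (by decide) (by decide); have := xx 1 7 (by decide) (by decide)
        have := xx 2 7 (by decide) (by decide); omega)
    (by have := xx 2 3 (by decide) (by decide); have := xx 2 8 (by decide) (by decide)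
        have := xx 3 8 (by decide) (by decide); omega)
    (by have := xx 3 4 (by decide) (by decide); have := xy 3 0 (by decide)
        have := xy 4 0 (by decide); omega)
    (by have := xx 5 9 (by decide) (by decide); have := xx 5 11 (by decide) (by decide)
        have := xx 9 11 (by decide) (by decide); omega)
    (by have := xx 6 10 (by decide) (by decide); have := xy 6 1 (by decide)
        have := xy 10 1 (by decide); omega)
    (by have := xx 7 9 (by decide) (by decide); have := xy 7 2 (by decide)
        have := xy 9 2 (by decide); omega)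
    (by have := xx 8 10 (by decide) (by decide); have := xx 8 11 (by decide) (by decide)
        have := xx 10 11 (by decide) (by decide); omega)
    (by have := yy 0 1 (by decide); have := yy 0 2 (by decide)
        have := yy 1 2 (by decide); omega)
    (by omega)
  -- `C` is a component
  set X : Finset (PV T ρ) := C.image (fun u => fv i u) with hX
  have h1 := sep_of_kconn _ _ hK X Xᶜ (hC.image _)
    ⟨sv i, by
      rw [mem_compl, hX, mem_image]
      rintro ⟨u, -, hu⟩
      simp at hu⟩
    disjoint_compl_right
    (by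
      intro v hv w hw hvw
      rw [SimpleGraph.deleteEdges_adj] at hvw
      obtain ⟨u, hu, rfl⟩ := mem_image.1 hv
      rw [mem_compl] at hw
      have h2 := mem_nbr hvw.1
      unfold nbr at h2
      rcases mem_union.1 h2 with h2 | h2
      · obtain ⟨z, hz, rfl⟩ := mem_image.1 h2
        rw [mem_filter] at hz
        have hzC : z ∉ C := fun h => hw (mem_image.2 ⟨z, h, rfl⟩)
        obtain ⟨t, ht | ht⟩ := (padj_iff u z).1 hz.2
        · have h3 := (hx1 t).1 (hC1 t (Or.inl ⟨by rw [ht]; exact hu, by rw [ht]; exact hzC⟩))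
          unfold ein at h3
          rw [ht] at h3
          exact hvw.2 (mem_coe.2 h3)
        · have h3 := (hx1 t).1 (hC1 t (Or.inr ⟨by rw [ht]; exact hu, by rw [ht]; exact hzC⟩))
          unfold ein at h3
          rw [ht, Sym2.eq_swap] at h3
          exact hvw.2 (mem_coe.2 h3)
      · obtain ⟨a, ha, rfl⟩ := mem_image.1 h2
        rw [mem_filter] at ha
        have ha2 := ha.2
        subst ha2
        exact hvw.2 (mem_coe.2 ((hy1 a).1 (hC2 a hu))))
  have h2 : (X ∪ Xᶜ)ᶜ = ∅ := by
    rw [union_compl, compl_univ]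
  rw [h2, card_empty] at h1
  omega

/-- at most one edge at an additional vertex is deleted -/
theorem one_ext (x : Fin ρ) {w w' : PV T ρ} (h1 : s(ev x, w) ∈ F) (h2 : s(ev x, w') ∈ F) :
    w = w' := by
  classical
  refine deg_one (petG T ρ) F 2 hF hK (ev x) (univ.image (fun a => sv (off T a))) ?_ ?_ h1 h2
  · intro w h
    rcases h with h | h
    · exact absurd h (by
        intro h
        cases h)
    · generalize hv : (ev x : PV T ρ) = v at h
      cases h with
      | inner j t => simp at hv
      | out j a => simp at hv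
      | ext z a => exact mem_image.2 ⟨a, mem_univ _, rfl⟩
  · exact card_image_le.trans (by rw [card_univ, Fintype.card_fin])

open Classical in
theorem total : F.card ≤ 4 * (T + 5) + ρ := by
  set A : Fin (T + 5) → Finset (Sym2 (PV T ρ)) := fun i =>
    (univ.filter (fun t => ein i t ∈ F)).image (fun t => ein i t) ∪
      (univ.filter (fun a => eout i a ∈ F)).image (fun a => eout i a) with hA
  set B : Fin ρ → Finset (Sym2 (PV T ρ)) := fun x =>
    (univ.filter (fun a => s(ev x, sv (off T a)) ∈ F)).image (fun a => s(ev x, sv (off T a))) with hB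
  have hsub : F ⊆ univ.biUnion A ∪ univ.biUnion B := by
    intro e he
    have h1 := hF (mem_coe.2 he)
    induction e using Sym2.ind with
    | _ v w =>
      rw [SimpleGraph.mem_edgeSet] at h1
      have key : ∀ v w : PV T ρ, Half v w → s(v, w) ∈ F →
          s(v, w) ∈ univ.biUnion A ∪ univ.biUnion B := by
        intro v w h hm
        cases h with
        | inner i t =>
          exact mem_union_left _ (mem_biUnion.2 ⟨i, mem_univ _, mem_union_left _
            (mem_image.2 ⟨t, mem_filter.2 ⟨mem_univ _, hm⟩, rfl⟩)⟩)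
        | out i a =>
          exact mem_union_left _ (mem_biUnion.2 ⟨i, mem_univ _, mem_union_right _
            (mem_image.2 ⟨a, mem_filter.2 ⟨mem_univ _, hm⟩, rfl⟩)⟩)
        | ext x a =>
          rw [Sym2.eq_swap] at hm ⊢
          exact mem_union_right _ (mem_biUnion.2 ⟨x, mem_univ _,
            (mem_image.2 ⟨a, mem_filter.2 ⟨mem_univ _, hm⟩, rfl⟩)⟩)
      rcases h1 with h1 | h1
      · exact key _ _ h1 he
      · rw [Sym2.eq_swap] at he ⊢
        exact key _ _ h1 he
  have hAc : ∀ i ∈ (univ : Finset (Fin (T + 5))), (A i).card ≤ 4 := by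
    intro i _
    exact (card_union_le _ _).trans ((add_le_add card_image_le card_image_le).trans
      (four F hF hK i))
  have hBc : ∀ x ∈ (univ : Finset (Fin ρ)), (B x).card ≤ 1 := by
    intro x _
    rw [card_le_one]
    intro e he e' he'
    obtain ⟨a, ha, rfl⟩ := mem_image.1 he
    obtain ⟨b, hb, rfl⟩ := mem_image.1 he'
    rw [mem_filter] at ha hb
    rw [one_ext F hF hK x ha.2 hb.2]
  have h1 := (card_le_card hsub).trans (card_union_le _ _)
  have h2 := card_biUnion_le_card_mul univ A 4 hAc
  have h3 := card_biUnion_le_card_mul univ B 1 hBc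
  rw [card_univ, Fintype.card_fin] at h2 h3
  omega

end Del

theorem fnk_three (m ρ : ℕ) (hm : 5 ≤ m) : fnk (10 * m + ρ) 3 ≤ 4 * m + ρ := by
  classical
  obtain ⟨T, rfl⟩ : ∃ T, m = T + 5 := ⟨m - 5, by omega⟩
  refine fnk_le_of_graph (petG T ρ) _ 3 _ ?_ pet_conn ?_
  · rw [card_PV]
    ring
  · intro F hF hK
    exact total F hF hK

end Pool.Agent.PetRing
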