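import Pool.Agent.Lib_helper32.OR.Fin
import Pool.Agent.PetRing.Del

/-!
# MP_df1a54_co: the order of the second term of `f(n, k)` for every `k ≥ 2`
-/

open Finset

set_option autoImplicit false

namespace Pool.Agent.PetRing

open Pool.Agent.RE26 Pool.Agent.Rem2 Pool.Agent.OddRing

/-- `k = 3` -/
theorem three {n : ℕ} (hn : 4 ≤ n) : (fnk n 3 : ℝ) ≤ 2 * n / 5 + 6 := by
  rcases Nat.lt_or_ge n 50 with h | h
  · have h1 := fnk_half (n := n) (k := 3) (by norm_num) (by omega)
    have h2 : (n : ℝ) ≤ 50 := by exact_mod_cast h.le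
    linarith
  · have h1 := fnk_three (n / 10) (n % 10) (by omega)
    have h2 : 10 * (n / 10) + n % 10 = n := Nat.div_add_mod n 10
    rw [h2] at h1
    have h3 : n % 10 < 10 := Nat.mod_lt _ (by norm_num)
    have h4 : 5 * fnk n 3 ≤ 2 * n + 30 := by omega
    have h5 : (5 : ℝ) * fnk n 3 ≤ 2 * n + 30 := by exact_mod_cast h4
    linarith

/-- the order of the deficit for all `k ≥ 2` -/
theorem order_all {n k : ℕ} (hk : 2 ≤ k) (hn : 20 * k ^ 3 ≤ n) :
    (n : ℝ) / (20 * k) ≤ n / 2 - fnk n k ∧
      (n : ℝ) / 2 - fnk n k ≤ 342 * n * (Real.log k + 1) ^ 2 / k := by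
  rcases Nat.lt_or_ge k 4 with h4 | h4
  · have hkn : k < n := by
      have h1 : k ≤ k ^ 3 := Nat.le_self_pow (by norm_num) k
      omega
    constructor
    · have h5 : k = 2 ∨ k = 3 := by omega
      rcases h5 with rfl | rfl
      · have h1 := even_case (n := n) (m := 1) le_rfl (by omega)
        have h2 : (160 : ℝ) ≤ n := by
          have : 160 ≤ n := by omega
          exact_mod_cast this
        norm_num at h1 ⊢
        linarith
      · have h1 := three (n := n) (by omega)
        have h2 : (540 : ℝ) ≤ n := by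
          have : 540 ≤ n := by omega
          exact_mod_cast this
        norm_num at h1 ⊢
        linarith
    · have h1 := ((second slot).1 n k hk hkn).1
      have hkR : (0 : ℝ) < k := by
        have : 0 < k := by omega
        exact_mod_cast this
      have h2 : (n : ℝ) / 2 * (1 - 684 * (Real.log k + 1) ^ 2 / k) =
          n / 2 - 342 * n * (Real.log k + 1) ^ 2 / k := by
        field_simp
        ring
      linarith
  · exact order h4 hn

end Pool.Agent.PetRing
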