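import Pool.Agent.Lib_helper32.OR.Gen
import Pool.Agent.PetRing.Core

/-!
# MP_df1a54_co, `k = 3`: a ring of copies of the Petersen graph minus a vertex

Position `i` of the ring consists of a copy `(i, u)` of the Petersen graph minus a vertex and a single
vertex `i`; the three free places of copy `i` are joined to the single vertices `i`, `i + 1`, `i + 2`.
There are `ρ` more vertices, each joined to the single vertices `0`, `1`, `2`.
-/

open Finset

set_option autoImplicit false
set_option linter.unusedSectionVars false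
set_option linter.unusedVariables false

namespace Pool.Agent.PetRing

open Pool.Agent.RE26

/-- the vertices -/
abbrev PV (T ρ : ℕ) : Type := (Fin (T + 5) × Fin 9) ⊕ (Fin (T + 5) ⊕ Fin ρ)

variable {T ρ : ℕ}

/-- the vertex `u` of copy `i` -/
abbrev fv (i : Fin (T + 5)) (u : Fin 9) : PV T ρ := Sum.inl (i, u)

/-- the single vertex `i` -/
abbrev sv (i : Fin (T + 5)) : PV T ρ := Sum.inr (Sum.inl i)

/-- an additional vertex -/
abbrev ev (x : Fin ρ) : PV T ρ := Sum.inr (Sum.inr x)

/-- the shifts of the ring -/
def off (T : ℕ) (a : Fin 3) : Fin (T + 5) := ⟨a, by omega⟩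

theorem off_inj {a b : Fin 3} (h : off T a = off T b) : a = b := by
  have h1 : (off T a).val = (off T b).val := by rw [h]
  exact Fin.ext h1

/-- the edges, in one direction -/
inductive Half : PV T ρ → PV T ρ → Prop
  | inner (i : Fin (T + 5)) (t : Fin 12) : Half (fv i (pend t).1) (fv i (pend t).2)
  | out (i : Fin (T + 5)) (a : Fin 3) : Half (fv i (att a)) (sv (i + off T a))
  | ext (x : Fin ρ) (a : Fin 3) : Half (sv (off T a)) (ev x)

/-- the graph -/
def petG (T ρ : ℕ) : SimpleGraph (PV T ρ) where
  Adj u v := Half u v ∨ Half v u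
  symm := ⟨fun _ _ h => h.symm⟩
  loopless := ⟨fun u h => by
    have key : ∀ u v : PV T ρ, Half u v → u ≠ v := by
      intro u v h
      cases h with
      | inner i t => intro he; exact pend_ne t (by simpa using he)
      | out i a => intro he; simp at he
      | ext x a => intro he; simp at he
    rcases h with h | h
    · exact key u u h rfl
    · exact key u u h rfl⟩

theorem card_PV : Fintype.card (PV T ρ) = (T + 5) * 10 + ρ := by
  simp [Fintype.card_sum, Fintype.card_prod]
  ring

theorem padj_iff (u v : Fin 9) : padj u v = true ↔ ∃ t, pend t = (u, v) ∨ pend t = (v, u) := by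
  unfold padj
  rw [decide_eq_true_iff]

theorem adj_inner (i : Fin (T + 5)) {u v : Fin 9} (h : padj u v = true) :
    (petG T ρ).Adj (fv i u) (fv i v) := by
  obtain ⟨t, ht | ht⟩ := (padj_iff u v).1 h
  · left
    have := Half.inner (ρ := ρ) i t
    rw [ht] at this
    exact this
  · right
    have := Half.inner (ρ := ρ) i t
    rw [ht] at this
    exact this

theorem adj_out (i : Fin (T + 5)) (a : Fin 3) :
    (petG T ρ).Adj (fv i (att a)) (sv (i + off T a)) := Or.inl (Half.out i a)

section Conn

variable {X Y : Finset (PV T ρ)}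

theorem chain_mem (hn : ∀ x ∈ X, ∀ y ∈ Y, ¬ (petG T ρ).Adj x y) (i : Fin (T + 5)) :
    ∀ (l : List (Fin 9)) (u : Fin 9), chk u l = true → (∀ z ∈ l, fv i z ∈ X ∪ Y) →
      fv i u ∈ X → ∀ z ∈ u :: l, fv i z ∈ X
  | [], u, _, _, hu => by
    intro z hz
    rw [List.mem_singleton] at hz
    rw [hz]
    exact hu
  | v :: l, u, hc, hl, hu => by
    have hc1 : padj u v = true ∧ chk v l = true := by
      have : (padj u v && chk v l) = true := hc
      rwa [Bool.and_eq_true] at this
    have hv : fv i v ∈ X := by
      have h1 := hl v (List.mem_cons_self)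
      rcases mem_union.1 h1 with h | h
      · exact h
      · exact absurd (adj_inner i hc1.1) (hn _ hu _ h)
    have ih := chain_mem hn i l v hc1.2 (fun z hz => hl z (List.mem_cons_of_mem _ hz)) hv
    intro z hz
    rcases List.mem_cons.1 hz with rfl | hz
    · exact hu
    · exact ih z hz

/-- the position of a vertex -/
def pos : PV T ρ → Option (Fin (T + 5))
  | Sum.inl (i, _) => some i
  | Sum.inr (Sum.inl i) => some i
  | Sum.inr (Sum.inr _) => none

/-- a position is clean if the separating set does not meet it -/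
def Clean (X Y : Finset (PV T ρ)) (i : Fin (T + 5)) : Prop := ∀ v ∈ (X ∪ Y)ᶜ, pos v ≠ some i

theorem clean_fv {i : Fin (T + 5)} (h : Clean X Y i) (u : Fin 9) : fv i u ∈ X ∪ Y := by
  by_contra hcon
  exact h _ (mem_compl.2 hcon) rfl

theorem clean_sv {i : Fin (T + 5)} (h : Clean X Y i) : sv i ∈ X ∪ Y := by
  by_contra hcon
  exact h _ (mem_compl.2 hcon) rfl

/-- in a clean position all vertices are on the side of the single vertex, and so is every single
vertex joined to it -/
theorem clean_side (hn : ∀ x ∈ X, ∀ y ∈ Y, ¬ (petG T ρ).Adj x y) {i : Fin (T + 5)}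
    (h : Clean X Y i) (hi : sv i ∈ X) (a : Fin 3) : sv (i + off T a) ∉ Y := by
  have h0 : fv i (att 0) ∈ X := by
    rcases mem_union.1 (clean_fv h (att 0)) with h1 | h1
    · exact h1
    · exfalso
      have h2 := adj_out (ρ := ρ) i 0
      have h3 : i + off T 0 = i := by
        have : off T 0 = 0 := rfl
        rw [this, add_zero]
      rw [h3] at h2
      exact hn _ hi _ h1 h2.symm
  have h1 : fv i (att a) ∈ X := by
    refine chain_mem hn i (tl (att 0) a) (att 0) (tl_chk _ _) (fun z _ => clean_fv h z) h0 _ ?_
    exact tl_last _ _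
  intro h2
  exact hn _ h1 _ h2 (adj_out i a)

theorem card_unclean (hS : (X ∪ Y)ᶜ.card ≤ 2) (P : Finset (Fin (T + 5)))
    (hP : ∀ i ∈ P, ¬ Clean X Y i) : P.card ≤ 2 := by
  classical
  have h1 : P.card ≤ (((X ∪ Y)ᶜ).image pos).card := by
    refine card_le_card_of_injOn (fun i => some i) ?_ ?_
    · intro i hi
      have h2 := hP i (mem_coe.1 hi)
      unfold Clean at h2
      push Not at h2
      obtain ⟨v, hv, hv2⟩ := h2
      rw [mem_coe, mem_image]
      exact ⟨v, hv, hv2⟩
    · intro i _ i' _ h
      simpa using h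
  exact h1.trans (card_image_le.trans hS)

end Conn

end Pool.Agent.PetRing
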